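import Mathlib

set_option autoImplicit false

namespace Pool.Agent.H.MP_605763_gt

open MeasureTheory Set Metric
open scoped ENNReal InnerProductSpace

variable {E : Type} [NormedAddCommGroup E] [InnerProductSpace ℝ E] [FiniteDimensional ℝ E]
  [MeasurableSpace E] [BorelSpace E]

/-- the X-ray of `A` parallel to `S` -/
noncomputable def xray (S : Submodule ℝ E) (A : Set E) (x : Sᗮ) : ℝ≥0∞ :=
  volume {s : S | (s : E) + x ∈ A}

/-- every ellipsoid is determined among measurable sets by its X-rays parallel to the `S i` -/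
def Det {ι : Type} (S : ι → Submodule ℝ E) : Prop :=
  ∀ (T : E ≃ₗ[ℝ] E) (c : E) (A' : Set E), Bornology.IsBounded A' → NullMeasurableSet A' volume →
    (∀ i, xray (S i) A' = xray (S i) ((fun x => T x + c) '' closedBall 0 1)) →
    volume (symmDiff A' ((fun x => T x + c) '' closedBall 0 1)) = 0

lemma mp (S : Submodule ℝ E) :
    MeasurePreserving (fun q : Sᗮ × S => (q.2 : E) + q.1) (volume.prod volume) volume := by
  have := (S.orthogonalDecomposition.symm.measurePreserving.comp
    (WithLp.volume_preserving_toLp S Sᗮ)).comp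
      (Measure.measurePreserving_swap (μ := (volume : Measure Sᗮ)) (ν := (volume : Measure S)))
  exact this

lemma push0 (S : Submodule ℝ E) {A : Set E} (hA : MeasurableSet A) :
    (volume.restrict A).map Sᗮ.orthogonalProjectionOnto = volume.withDensity (xray S A) := by
  have hπ : Measurable (Sᗮ.orthogonalProjectionOnto : E → Sᗮ) := by fun_prop
  ext B hB
  rw [Measure.map_apply hπ hB, Measure.restrict_apply (hπ hB), withDensity_apply _ hB,
    ← (mp S).measure_preimage ((hπ hB).inter hA).nullMeasurableSet,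
    Measure.prod_apply ((mp S).measurable ((hπ hB).inter hA)), ← lintegral_indicator hB]
  refine lintegral_congr fun v => ?_
  have e : ∀ s : S, Sᗮ.orthogonalProjectionOnto ((s : E) + v) = v := fun s => by
    rw [map_add, Submodule.orthogonalProjectionOnto_mem_subspace_eq_self,
      Submodule.orthogonalProjectionOnto_orthogonal_apply_eq_zero s.2, zero_add]
  by_cases hv : v ∈ B
  · rw [indicator_of_mem hv, xray]
    congr 1
    ext s; simp [e, hv]
  · rw [indicator_of_notMem hv]
    convert measure_empty (μ := (volume : Measure S))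
    ext s; simp [e, hv]

lemma push (S : Submodule ℝ E) {A : Set E} (hA : NullMeasurableSet A volume) :
    (volume.restrict A).map Sᗮ.orthogonalProjectionOnto = volume.withDensity (xray S A) := by
  obtain ⟨A0, -, h1, h2⟩ := hA.exists_measurable_superset_ae_eq
  rw [← Measure.restrict_congr_set h2, push0 S h1]
  refine withDensity_congr_ae ?_
  have := Measure.ae_ae_of_ae_prod ((mp S).quasiMeasurePreserving.ae h2)
  filter_upwards [this] with v hv
  exact measure_congr hv

lemma mom (S : Submodule ℝ E) {A A' : Set E} (hA : NullMeasurableSet A volume)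
    (hA' : NullMeasurableSet A' volume) (h : xray S A' = xray S A) (f : E → ℝ)
    (hf : Continuous f) (hS : ∀ x, f (Sᗮ.orthogonalProjectionOnto x) = f x) :
    ∫ x in A', f x = ∫ x in A, f x := by
  have key : ∀ B : Set E, ∫ x in B, f x =
      ∫ v : Sᗮ, f v ∂((volume.restrict B).map Sᗮ.orthogonalProjectionOnto) := fun B => by
    rw [integral_map (by fun_prop) (Continuous.aestronglyMeasurable (by fun_prop))]
    simp only [hS]
  rw [key, key, push S hA, push S hA', h]

lemma intg {A : Set E} (hA : Bornology.IsBounded A) {f : E → ℝ} (hf : Continuous f) :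
    IntegrableOn f A :=
  (hf.continuousOn.integrableOn_compact hA.isCompact_closure).mono_set subset_closure

noncomputable def Dl {A A' : Set E} (hA : Bornology.IsBounded A) (hA' : Bornology.IsBounded A') :
    C(E, ℝ) →ₗ[ℝ] ℝ where
  toFun f := (∫ x in A', f x) - ∫ x in A, f x
  map_add' f g := by
    simp only [ContinuousMap.add_apply]
    rw [integral_add (intg hA f.continuous) (intg hA g.continuous),
      integral_add (intg hA' f.continuous) (intg hA' g.continuous)]
    ring
  map_smul' c f := by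
    simp only [ContinuousMap.smul_apply, smul_eq_mul, integral_const_mul, RingHom.id_apply]
    ring

noncomputable def ell : E →ₗ[ℝ] C(E, ℝ) where
  toFun a := ⟨fun x => ⟪a, x⟫_ℝ, by fun_prop⟩
  map_add' a b := by ext x; simp [inner_add_left]
  map_smul' c a := by ext x; simp [inner_smul_left]

omit [MeasurableSpace E] [BorelSpace E] in
lemma inner_proj (V : Submodule ℝ E) {v : E} (hv : v ∈ V) (x : E) :
    ⟪v, (V.orthogonalProjectionOnto x : E)⟫_ℝ = ⟪v, x⟫_ℝ := by
  exact V.inner_orthogonalProjectionOnto_eq_of_mem_left ⟨v, hv⟩ x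

theorem upper {ι : Type} [Nonempty ι] (S : ι → Submodule ℝ E)
    (h : ∀ B : E →ₗ[ℝ] E →ₗ[ℝ] ℝ, (∀ i, ∀ v ∈ (S i)ᗮ, B v v = 0) → ∀ v, B v v = 0) :
    Det S := by
  intro T c A' hb hm hx
  set A := (fun x => T x + c) '' closedBall (0 : E) 1 with hA
  have hT : Continuous T := T.toLinearMap.continuous_of_finiteDimensional
  have hT' : Continuous T.symm := T.symm.toLinearMap.continuous_of_finiteDimensional
  have hc : IsCompact A := (isCompact_closedBall 0 1).image (by fun_prop)
  have hmem : ∀ x, x ∈ A ↔ ‖T.symm (x - c)‖ ≤ 1 := by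
    intro x
    constructor
    · rintro ⟨y, hy, rfl⟩; simpa using hy
    · exact fun hy => ⟨T.symm (x - c), by simpa using hy, by simp⟩
  set D := Dl hc.isBounded hb with hD
  have hz : ∀ i (f : C(E, ℝ)), (∀ x, f ((S i)ᗮ.orthogonalProjectionOnto x) = f x) → D f = 0 :=
    fun i f hf => sub_eq_zero.2
      (mom (S i) hc.measurableSet.nullMeasurableSet hm (hx i) f f.2 hf)
  have h0 : D 1 = 0 := hz (Classical.arbitrary ι) 1 fun _ => rfl
  have h1 : ∀ a, D (ell a) = 0 := fun a => mul_self_eq_zero.1 <|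
    h ((LinearMap.mul ℝ ℝ).compl₁₂ (D ∘ₗ ell) (D ∘ₗ ell)) (fun i v hv => by
      have := hz i (ell v) fun x => inner_proj _ hv x
      simp [this]) a
  have h2 : ∀ a, D (ell a * ell a) = 0 :=
    h (((LinearMap.mul ℝ C(E, ℝ)).compl₁₂ ell ell).compr₂ D) fun i v hv =>
      hz i (ell v * ell v) fun x => by
        show ⟪v, _⟫_ℝ * ⟪v, _⟫_ℝ = ⟪v, x⟫_ℝ * ⟪v, x⟫_ℝ
        rw [inner_proj _ hv x]
  let g : C(E, ℝ) := ⟨fun x => 1 - ‖T.symm (x - c)‖ ^ 2, by fun_prop⟩
  have hg : D g = 0 := by
    let b := stdOrthonormalBasis ℝ E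
    let a := fun j => LinearMap.adjoint T.symm.toLinearMap (b j)
    have : g = 1 - ∑ j, (ell (a j) * ell (a j) - (2 * ⟪a j, c⟫_ℝ) • ell (a j) +
        (⟪a j, c⟫_ℝ ^ 2) • 1) := by
      ext x
      simp only [g, ContinuousMap.coe_mk, ContinuousMap.sub_apply, ContinuousMap.one_apply,
        ContinuousMap.coe_sum, Finset.sum_apply, ContinuousMap.add_apply, ContinuousMap.mul_apply,
        ContinuousMap.smul_apply, smul_eq_mul]
      rw [← b.sum_sq_inner_right]
      congr 1
      refine Finset.sum_congr rfl fun j _ => ?_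
      have e : ⟪b j, T.symm (x - c)⟫_ℝ = ⟪a j, x⟫_ℝ - ⟪a j, c⟫_ℝ := by
        rw [← inner_sub_right, LinearMap.adjoint_inner_left]; rfl
      rw [e]
      show _ = ⟪a j, x⟫_ℝ * ⟪a j, x⟫_ℝ - 2 * ⟪a j, c⟫_ℝ * ⟪a j, x⟫_ℝ + ⟪a j, c⟫_ℝ ^ 2 * 1
      ring
    rw [this]
    simp [h0, h1, h2]
  have i1 : Integrable (A.indicator g) :=
    (intg hc.isBounded g.continuous).integrable_indicator hc.measurableSet
  have i2 : Integrable (A'.indicator g) := (intg hb g.continuous).integrable_indicator₀ hm
  have hgA : ∀ x, x ∈ A ↔ 0 ≤ g x := fun x => by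
    rw [hmem]
    show _ ↔ 0 ≤ 1 - ‖T.symm (x - c)‖ ^ 2
    rw [sub_nonneg, sq_le_one_iff₀ (norm_nonneg _)]
  have hnn : 0 ≤ A.indicator g - A'.indicator g := fun x => by
    have := hgA x
    by_cases p : x ∈ A <;> by_cases q : x ∈ A' <;> simp [p, q] at this ⊢ <;> linarith
  have hae := (integral_eq_zero_iff_of_nonneg hnn (i1.sub i2)).1 (by
    show ∫ x, (A.indicator g x - A'.indicator g x) = 0
    rw [integral_sub i1 i2, integral_indicator hc.measurableSet, integral_indicator₀ hm]
    have : (∫ x in A', g x) - ∫ x in A, g x = 0 := hg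
    linarith)
  have hnull : ∀ᵐ x : E, g x ≠ 0 := by
    rw [ae_iff]
    have e : {x | ¬ g x ≠ 0} = (fun x => x + -c) ⁻¹' (T '' sphere (0 : E) 1) := by
      ext x
      simp only [g, ContinuousMap.coe_mk, ne_eq, not_not, mem_ofPred_eq, mem_preimage,
        ← sub_eq_add_neg, LinearEquiv.image_eq_preimage_symm, mem_sphere_zero_iff_norm]
      rw [sub_eq_zero, eq_comm, pow_eq_one_iff_of_nonneg (norm_nonneg _) two_ne_zero]
    rw [e, measure_preimage_add_right]
    have := Measure.addHaar_image_linearMap volume T.toLinearMap (sphere (0 : E) 1)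
    rw [Measure.addHaar_sphere_of_ne_zero _ _ one_ne_zero, mul_zero] at this
    exact this
  rw [measure_symmDiff_eq_zero_iff]
  filter_upwards [hae, hnull] with x h1 h2
  by_cases p : x ∈ A <;> by_cases q : x ∈ A' <;> simp [p, q, h2] at h1
  · exact propext ⟨fun _ => p, fun _ => q⟩
  · exact propext ⟨fun r => absurd r q, fun r => absurd r p⟩

lemma xr (S : Submodule ℝ E) (F : E →ₗ[ℝ] E) (hF : |LinearMap.det F| = 1) {c : E} (hc : c ∈ S)
    (h : ∀ x, F x - x ∈ S) (A : Set E) : xray S ((fun x => F x + c) '' A) = xray S A := by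
  funext v
  have he : S ≤ S.comap F := fun x hx => by simpa using S.add_mem (h x) hx
  have hq : S.mapQ S F he = LinearMap.id := by
    refine Submodule.linearMap_qext _ (LinearMap.ext fun x => ?_)
    simpa [Submodule.Quotient.eq] using h x
  have hd := LinearMap.det_eq_det_mul_det S F he
  rw [hq, LinearMap.det_id, mul_one] at hd
  let s0 : S := ⟨F v - v + c, S.add_mem (h v) hc⟩
  have e : {s : S | (s : E) + v ∈ (fun x => F x + c) '' A} =
      (fun s => s + -s0) ⁻¹' (F.restrict he '' {s : S | (s : E) + v ∈ A}) := by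
    ext s
    constructor
    · rintro ⟨a, ha, hs⟩
      have hs' : F a + c = s + v := hs
      refine ⟨⟨a - v, ?_⟩, by simpa using ha, Subtype.ext ?_⟩
      · have := S.sub_mem (S.sub_mem s.2 hc) (h a)
        convert this using 1
        rw [eq_sub_of_add_eq hs']; abel
      · simp only [LinearMap.coe_restrict_apply, map_sub, s0, Submodule.coe_add,
          Submodule.coe_neg]
        rw [eq_sub_of_add_eq hs']; abel
    · rintro ⟨t, ht, hs⟩
      refine ⟨t + v, ht, ?_⟩
      have := congrArg Subtype.val hs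
      simp only [LinearMap.coe_restrict_apply, s0, Submodule.coe_add, Submodule.coe_neg] at this
      simp only [map_add, this]
      abel
  unfold xray
  rw [e, measure_preimage_add_right, Measure.addHaar_image_linearMap, ← hd, hF]
  simp

noncomputable def dg {n : ℕ} (b : OrthonormalBasis (Fin n) ℝ E) (g : Fin n → ℝ) : E →ₗ[ℝ] E :=
  b.toBasis.constr ℝ (fun j => g j • b j)

section
omit [MeasurableSpace E] [BorelSpace E] [FiniteDimensional ℝ E]
variable {n : ℕ} (b : OrthonormalBasis (Fin n) ℝ E)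

lemma dg_b (g : Fin n → ℝ) (j : Fin n) : dg b g (b j) = g j • b j := by
  simpa [dg] using b.toBasis.constr_basis ℝ (fun j => g j • b j) j

lemma dg_inner (g : Fin n → ℝ) (j : Fin n) (x : E) :
    ⟪b j, dg b g x⟫_ℝ = g j * ⟪b j, x⟫_ℝ := by
  conv_lhs => rw [← b.sum_repr' x]
  simp only [map_sum, map_smul, dg_b, inner_sum, inner_smul_right,
    orthonormal_iff_ite.1 b.orthonormal]
  simp [mul_comm]

lemma dg_symm (g : Fin n → ℝ) (x y : E) : ⟪dg b g x, y⟫_ℝ = ⟪x, dg b g y⟫_ℝ := by
  rw [← b.sum_inner_mul_inner, ← b.sum_inner_mul_inner x]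
  refine Finset.sum_congr rfl fun j _ => ?_
  rw [real_inner_comm, dg_inner, dg_inner, real_inner_comm x]
  ring

lemma dg_dg (g h : Fin n → ℝ) (x : E) : dg b g (dg b h x) = dg b (g * h) x := by
  have : dg b g ∘ₗ dg b h = dg b (g * h) :=
    b.toBasis.ext fun j => by simp [dg_b, smul_smul, mul_comm]
  exact LinearMap.congr_fun this x

lemma dg_one (x : E) : dg b 1 x = x := by
  have : dg b 1 = LinearMap.id := b.toBasis.ext fun j => by simp [dg_b]
  simp [this]

lemma dg_det (g : Fin n → ℝ) : LinearMap.det (dg b g) = ∏ j, g j := by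
  rw [← LinearMap.det_toMatrix b.toBasis, ← Matrix.det_diagonal]
  congr 1
  ext i j
  rw [LinearMap.toMatrix_apply, OrthonormalBasis.coe_toBasis, dg_b, map_smul]
  by_cases h : i = j
  · subst h; simp
  · simp [h]

noncomputable def de {g : Fin n → ℝ} (hg : ∀ j, 0 < g j) : E ≃ₗ[ℝ] E :=
  LinearEquiv.ofLinearMap (dg b g) (dg b g⁻¹)
    (LinearMap.ext fun x => by
      have : g * g⁻¹ = 1 := funext fun j => mul_inv_cancel₀ (hg j).ne'
      simp [dg_dg, this, dg_one])
    (LinearMap.ext fun x => by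
      have : g⁻¹ * g = 1 := funext fun j => inv_mul_cancel₀ (hg j).ne'
      simp [dg_dg, this, dg_one])

end

lemma pick {n : ℕ} (l : Fin n → ℝ) (hp : ∃ j, 0 < l j) (hn : ∃ j, l j < 0) :
    ∃ g g' : Fin n → ℝ, (∀ j, 0 < g j) ∧ (∀ j, 0 < g' j) ∧ (∀ j, g j ^ 2 - g' j ^ 2 = l j) ∧
      ∏ j, g j = ∏ j, g' j := by
  set P := (Finset.univ.filter (fun j => 0 < l j)).card with hP
  set N := (Finset.univ.filter (fun j => l j < 0)).card with hN
  have hP0 : P ≠ 0 := by
    obtain ⟨j, hj⟩ := hp
    exact Finset.card_ne_zero.2 ⟨j, by simpa using hj⟩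
  have hN0 : N ≠ 0 := by
    obtain ⟨j, hj⟩ := hn
    exact Finset.card_ne_zero.2 ⟨j, by simpa using hj⟩
  have a1 : (1 : ℝ) < 2 ^ N := one_lt_pow₀ (by norm_num) hN0
  have a2 : (2⁻¹ : ℝ) ^ P < 1 := pow_lt_one₀ (by norm_num) (by norm_num) hP0
  have a3 : (0 : ℝ) < 2⁻¹ ^ P := by positivity
  let r : Fin n → ℝ := fun j => (if 0 < l j then 2 ^ N else 1) * (if l j < 0 then 2⁻¹ ^ P else 1)
  have hr : ∀ j, 0 < r j := fun j => by simp only [r]; split_ifs <;> positivity
  have key : ∀ j, ∃ y : ℝ, 0 < y ∧ (r j * y) ^ 2 - y ^ 2 = l j := by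
    intro j
    rcases lt_trichotomy (l j) 0 with h | h | h
    · have e : r j = 2⁻¹ ^ P := by simp [r, h, h.le.not_gt]
      have : r j ^ 2 - 1 < 0 := by rw [e]; nlinarith
      have h3 := div_pos_of_neg_of_neg h this
      refine ⟨√(l j / (r j ^ 2 - 1)), Real.sqrt_pos.2 h3, ?_⟩
      rw [mul_pow, Real.sq_sqrt h3.le]
      field_simp [this.ne]
    · exact ⟨1, one_pos, by simp [r, h]⟩
    · have e : r j = 2 ^ N := by simp [r, h, h.le.not_gt]
      have : 0 < r j ^ 2 - 1 := by rw [e]; nlinarith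
      have h3 := div_pos h this
      refine ⟨√(l j / (r j ^ 2 - 1)), Real.sqrt_pos.2 h3, ?_⟩
      rw [mul_pow, Real.sq_sqrt h3.le]
      field_simp [this.ne']
  choose y hy hy' using key
  refine ⟨fun j => r j * y j, y, fun j => mul_pos (hr j) (hy j), hy, hy', ?_⟩
  rw [Finset.prod_mul_distrib, Finset.prod_mul_distrib, ← Finset.prod_filter,
    ← Finset.prod_filter, Finset.prod_const, Finset.prod_const, ← hP, ← hN, ← pow_mul,
    ← pow_mul, mul_comm N, ← mul_pow]
  simp

lemma notdet {ι : Type} {S : ι → Submodule ℝ E} (h : Det S) (T T' : E ≃ₗ[ℝ] E) (c : E)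
    (hx : ∀ i, xray (S i) ((fun x => T' x + c) '' closedBall 0 1) =
      xray (S i) ((fun x => T x + 0) '' closedBall 0 1))
    (x : E) (h1 : ‖T'.symm (x - c)‖ < 1) (h2 : 1 < ‖T.symm x‖) : False := by
  have hT : Continuous T.symm := T.symm.toLinearMap.continuous_of_finiteDimensional
  have hT' : Continuous T'.symm := T'.symm.toLinearMap.continuous_of_finiteDimensional
  have hT'' : Continuous T' := T'.toLinearMap.continuous_of_finiteDimensional
  have hc : IsCompact ((fun x => T' x + c) '' closedBall (0 : E) 1) :=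
    (isCompact_closedBall 0 1).image (by fun_prop)
  have := h T 0 _ hc.isBounded hc.measurableSet.nullMeasurableSet hx
  have ho : IsOpen ({x | ‖T'.symm (x - c)‖ < 1} ∩ {x | 1 < ‖T.symm x‖}) :=
    (isOpen_lt (by fun_prop) continuous_const).inter (isOpen_lt continuous_const (by fun_prop))
  refine (ho.measure_pos volume ⟨x, h1, h2⟩).ne' (measure_mono_null ?_ this)
  rintro y ⟨a, b⟩
  refine Or.inl ⟨⟨T'.symm (y - c), mem_closedBall_zero_iff.2 (le_of_lt a), by simp⟩, ?_⟩
  rintro ⟨z, hz, rfl⟩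
  simp at b hz
  linarith

lemma shift {ι : Type} {S : ι → Submodule ℝ E} (h : Det S) {w : E} (hw : ‖w‖ = 1)
    (hS : ∀ i, w ∈ S i) : False := by
  refine notdet h (LinearEquiv.refl ℝ E) (LinearEquiv.refl ℝ E) w (fun i => ?_) ((3 / 2 : ℝ) • w)
    ?_ ?_
  · have := xr (S i) LinearMap.id (by simp) (hS i) (by simp) (closedBall 0 1)
    simpa using this
  · have : (3 / 2 : ℝ) • w - w = (1 / 2 : ℝ) • w := by module
    simp [this, norm_smul, hw]; norm_num
  · simp [norm_smul, hw]; norm_num

theorem lower {ι : Type} {S : ι → Submodule ℝ E} (h : Det S) (T : E →ₗ[ℝ] E)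
    (hT : T.IsSymmetric) (h0 : ∀ i, ∀ v ∈ (S i)ᗮ, ⟪T v, v⟫_ℝ = 0) : T = 0 := by
  set b := hT.eigenvectorBasis rfl
  set l := hT.eigenvalues rfl
  have hTl : T = dg b l := b.toBasis.ext fun j => by
    rw [OrthonormalBasis.coe_toBasis, dg_b]
    exact hT.apply_eigenvectorBasis rfl j
  have hs : ∀ i, ∀ v ∈ (S i)ᗮ, ∑ j, l j * ⟪b j, v⟫_ℝ ^ 2 = 0 := fun i v hv => by
    rw [← h0 i v hv, hTl, ← b.sum_inner_mul_inner]
    refine Finset.sum_congr rfl fun j _ => ?_
    rw [real_inner_comm (b j) (dg b l v), dg_inner]; ring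
  have semi : ∀ ε : ℝ, (∀ j, 0 ≤ ε * l j) → ∀ j, ε * l j = 0 := by
    intro ε hε j
    by_contra hj
    refine shift h (b.orthonormal.1 j) fun i => ?_
    rw [← (S i).orthogonal_orthogonal, Submodule.mem_orthogonal']
    intro v hv
    have e : ∑ j, ε * l j * ⟪b j, v⟫_ℝ ^ 2 = 0 := by
      simp_rw [mul_assoc, ← Finset.mul_sum, hs i v hv, mul_zero]
    have := (Finset.sum_eq_zero_iff_of_nonneg
      (fun j _ => mul_nonneg (hε j) (sq_nonneg _))).1 e j (Finset.mem_univ j)
    simpa [hj] using (mul_eq_zero.1 this).resolve_left hj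
  have fin : (∀ j, l j = 0) → T = 0 := fun hl => by
    rw [hTl]; exact b.toBasis.ext fun j => by simp [dg_b, hl]
  by_cases hn : ∃ j, l j < 0
  swap
  · push Not at hn
    exact fin fun j => by simpa using semi 1 (by simpa using hn) j
  by_cases hp : ∃ j, 0 < l j
  swap
  · push Not at hp
    exact fin fun j => by simpa using semi (-1) (by simpa using hp) j
  exfalso
  obtain ⟨g, g', hg, hg', hl, hpr⟩ := pick l hp hn
  obtain ⟨j, hj⟩ := hp
  have hlt : g' j < g j := by
    have := hl j
    nlinarith [hg j, hg' j]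
  have hj1 := hg j
  have hj2 := hg' j
  refine notdet h (de b hg') (de b hg) 0 (fun i => ?_) (((g j + g' j) / 2) • b j) ?_ ?_
  · have hnm : ∀ v ∈ (S i)ᗮ, ‖dg b g' v‖ = ‖dg b g v‖ := fun v hv => by
      rw [← sq_eq_sq₀ (norm_nonneg _) (norm_nonneg _), ← b.sum_sq_inner_right,
        ← b.sum_sq_inner_right, eq_comm, ← sub_eq_zero, ← Finset.sum_sub_distrib, ← hs i v hv]
      refine Finset.sum_congr rfl fun j _ => ?_
      rw [dg_inner, dg_inner, ← hl]; ring
    let L : ((S i)ᗮ.map (dg b g)) →ₗᵢ[ℝ] E :=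
      ⟨(dg b g' ∘ₗ (de b hg).symm.toLinearMap) ∘ₗ Submodule.subtype _, by
        rintro ⟨_, v, hv, rfl⟩
        have : (de b hg).symm (dg b g v) = v := (de b hg).symm_apply_apply v
        simp [this, hnm v hv]⟩
    let U := L.extend.toLinearIsometryEquiv rfl
    have hU : ∀ v ∈ (S i)ᗮ, U (dg b g v) = dg b g' v := fun v hv => by
      have e : (de b hg).symm (dg b g v) = v := (de b hg).symm_apply_apply v
      have := L.extend_apply ⟨dg b g v, v, hv, rfl⟩
      simpa [L, e, U] using this
    let F : E →ₗ[ℝ] E := dg b g' ∘ₗ U.toLinearMap ∘ₗ (de b hg).symm.toLinearMap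
    have hUd : |LinearMap.det U.toLinearMap| = 1 := by
      have e := Measure.addHaar_image_linearMap volume U.toLinearMap (closedBall (0 : E) 1)
      have e2 : U.toLinearMap '' closedBall (0 : E) 1 = closedBall 0 1 := by
        simpa using U.image_closedBall 0 1
      rw [e2] at e
      nth_rewrite 1 [← one_mul (volume _)] at e
      have := (ENNReal.mul_left_inj (measure_closedBall_pos volume _ one_pos).ne'
        measure_closedBall_lt_top.ne).1 e
      exact ENNReal.ofReal_eq_one.1 this.symm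
    have hFd : |LinearMap.det F| = 1 := by
      have e : (de b hg).symm.toLinearMap = dg b g⁻¹ := rfl
      have e2 : ∏ j, g⁻¹ j = (∏ j, g j)⁻¹ := by simp
      have e3 : 0 < ∏ j, g j := Finset.prod_pos fun j _ => hg j
      simp only [F, LinearMap.det_comp, e, dg_det, abs_mul, hUd, e2, ← hpr, abs_inv,
        abs_of_pos e3]
      field_simp
    have hF : ∀ x, F x - x ∈ S i := fun x => by
      rw [← (S i).orthogonal_orthogonal, Submodule.mem_orthogonal]
      intro v hv
      have e : dg b g ((de b hg).symm x) = x := (de b hg).apply_symm_apply x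
      rw [inner_sub_right, sub_eq_zero]
      show ⟪v, dg b g' (U ((de b hg).symm x))⟫_ℝ = _
      rw [← dg_symm, ← hU v hv, U.inner_map_map, dg_symm, e]
    rw [← xr (S i) F hFd (S i).zero_mem hF, image_image]
    congr 1
    nth_rewrite 2 [← show U '' closedBall (0 : E) 1 = closedBall 0 1 by
      simpa using U.image_closedBall 0 1]
    rw [image_image]
    congr 1
    funext x
    simp only [add_zero]
    show dg b g' (U ((de b hg).symm (de b hg x))) = _
    rw [LinearEquiv.symm_apply_apply]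
    rfl
  · show ‖dg b g⁻¹ (_ - 0)‖ < 1
    rw [sub_zero, map_smul, dg_b, smul_smul, norm_smul, b.orthonormal.1, mul_one, Pi.inv_apply,
      Real.norm_of_nonneg (by positivity), ← div_eq_mul_inv, div_lt_one hj1]
    linarith
  · show 1 < ‖dg b g'⁻¹ _‖
    rw [map_smul, dg_b, smul_smul, norm_smul, b.orthonormal.1, mul_one, Pi.inv_apply,
      Real.norm_of_nonneg (by positivity), ← div_eq_mul_inv, one_lt_div hj2]
    linarith

theorem lower' {ι : Type} {S : ι → Submodule ℝ E} (h : Det S) (B : E →ₗ[ℝ] E →ₗ[ℝ] ℝ)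
    (h0 : ∀ i, ∀ v ∈ (S i)ᗮ, B v v = 0) (v : E) : B v v = 0 := by
  let T : E →ₗ[ℝ] E := (InnerProductSpace.toDual ℝ E).symm.toLinearEquiv.toLinearMap ∘ₗ
    (LinearMap.toContinuousLinearMap.toLinearMap ∘ₗ (B + B.flip))
  have hT : ∀ x y, ⟪T x, y⟫_ℝ = B x y + B y x := fun x y => by
    simp [T, inner_add_left]
  have := lower h T (fun x y => by rw [real_inner_comm (T y), hT, hT]; ring)
    (fun i v hv => by rw [hT, h0 i v hv, add_zero])
  have e := hT v v
  rw [this] at e
  simp at e
  linarith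

end Pool.Agent.H.MP_605763_gt
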