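import Pool.Agent.H.MP_605763_gt.A

set_option autoImplicit false

namespace Pool.Agent.H.MP_605763_gt

open Module
open scoped InnerProductSpace

/-- some `m` subspaces of dimension `k` of `ℝⁿ` determine all ellipsoids -/
def Good (n k m : ℕ) : Prop :=
  ∃ S : Fin m → Submodule ℝ (EuclideanSpace ℝ (Fin n)), (∀ i, finrank ℝ (S i) = k) ∧ Det S

def NQ {W : Type} [AddCommGroup W] [Module ℝ W] {ι : Type} (V : ι → Submodule ℝ W) : Prop :=
  ∀ B : W →ₗ[ℝ] W →ₗ[ℝ] ℝ, (∀ i, ∀ v ∈ V i, B v v = 0) → ∀ v, B v v = 0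

lemma NQ.mono {W : Type} [AddCommGroup W] [Module ℝ W] {ι κ : Type} {V : ι → Submodule ℝ W}
    {V' : κ → Submodule ℝ W} (h : NQ V) (hle : ∀ i, ∃ j, V i ≤ V' j) : NQ V' :=
  fun B hB => h B fun i v hv => by
    obtain ⟨j, hj⟩ := hle i
    exact hB j v (hj hv)

lemma NQ.of_pol {W : Type} [AddCommGroup W] [Module ℝ W] {ι : Type} {V : ι → Submodule ℝ W}
    (h : ∀ β : W →ₗ[ℝ] W →ₗ[ℝ] ℝ, (∀ a b, β a b = β b a) →
      (∀ i, ∀ a ∈ V i, ∀ b ∈ V i, β a b = 0) → ∀ v, β v v = 0) : NQ V := by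
  intro B hB v
  have := h (B + B.flip) (fun a b => by simp [add_comm]) (fun i a ha b hb => by
    have e := hB i (a + b) ((V i).add_mem ha hb)
    simp only [map_add, LinearMap.add_apply, hB i a ha, hB i b hb] at e
    simp only [LinearMap.add_apply, LinearMap.flip_apply]
    linarith) v
  simp only [LinearMap.add_apply, LinearMap.flip_apply] at this
  linarith

lemma shrink {W : Type} [AddCommGroup W] [Module ℝ W] [FiniteDimensional ℝ W]
    (U : Submodule ℝ W) {k : ℕ} (hk : k ≤ finrank ℝ U) :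
    ∃ S : Submodule ℝ W, S ≤ U ∧ finrank ℝ S = k := by
  obtain ⟨f, hf⟩ := exists_linearIndependent_of_le_finrank hk
  refine ⟨Submodule.span ℝ (Set.range (U.subtype ∘ f)), ?_, ?_⟩
  · rw [Submodule.span_le]
    rintro _ ⟨i, rfl⟩
    exact (f i).2
  · rw [finrank_span_eq_card (hf.map' U.subtype U.ker_subtype), Fintype.card_fin]

lemma good_of {W : Type} [AddCommGroup W] [Module ℝ W] [FiniteDimensional ℝ W] {ι : Type}
    [Fintype ι] [Nonempty ι] {n k m : ℕ} (hn : finrank ℝ W = n) (hm : Fintype.card ι = m)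
    (V : ι → Submodule ℝ W) (hd : ∀ i, finrank ℝ (V i) + k ≤ n) (h : NQ V) : Good n k m := by
  let e : W ≃ₗ[ℝ] EuclideanSpace ℝ (Fin n) := LinearEquiv.ofFinrankEq _ _ (by simp [hn])
  let σ := Fintype.equivFinOfCardEq hm
  have : Nonempty (Fin m) := ⟨σ (Classical.arbitrary ι)⟩
  have key : ∀ i, ∃ S : Submodule ℝ (EuclideanSpace ℝ (Fin n)),
      S ≤ ((V i).map e.toLinearMap)ᗮ ∧ finrank ℝ S = k := fun i => by
    apply shrink
    have h1 := ((V i).map e.toLinearMap).finrank_add_finrank_orthogonal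
    have h2 := LinearEquiv.finrank_map_eq e (V i)
    have h3 := hd i
    simp only [finrank_euclideanSpace, Fintype.card_fin] at h1
    omega
  choose S hS hk using key
  refine ⟨fun j => S (σ.symm j), fun j => hk _, upper _ fun B hB v => ?_⟩
  have := h (B.compl₁₂ e.toLinearMap e.toLinearMap) (fun i w hw => by
    have := hB (σ i) (e w) (by
      rw [Equiv.symm_apply_apply]
      exact Submodule.orthogonal_le (hS i) (Submodule.le_orthogonal_orthogonal _ ⟨w, hw, rfl⟩))
    simpa using this) (e.symm v)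
  simpa using this

lemma ker_dim {W K : Type} [AddCommGroup W] [Module ℝ W] [FiniteDimensional ℝ W]
    [AddCommGroup K] [Module ℝ K] (φ : W →ₗ[ℝ] K) (h : Function.Surjective φ) :
    finrank ℝ (LinearMap.ker φ) + finrank ℝ K = finrank ℝ W := by
  rw [← φ.finrank_range_add_finrank_ker, LinearMap.range_eq_top.2 h, finrank_top, add_comm]

lemma good4 {n k : ℕ} (h : 2 * k ≤ n) : Good n k 4 := by
  obtain ⟨r, rfl⟩ := Nat.exists_eq_add_of_le h
  let U := Fin k → ℝ
  let x : U × U × (Fin r → ℝ) →ₗ[ℝ] U := LinearMap.fst _ _ _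
  let y : U × U × (Fin r → ℝ) →ₗ[ℝ] U := LinearMap.fst _ _ _ ∘ₗ LinearMap.snd _ _ _
  let A : U →ₗ[ℝ] U := LinearMap.pi fun i => (i : ℝ) • LinearMap.proj i
  let φ : Fin 4 → (U × U × (Fin r → ℝ) →ₗ[ℝ] U) := ![y, x, x - y, A ∘ₗ x - y]
  have hn : finrank ℝ (U × U × (Fin r → ℝ)) = 2 * k + r := by simp [U]; ring
  refine good_of hn (by simp) (fun i => LinearMap.ker (φ i)) (fun i => ?_) (NQ.of_pol ?_)
  · have := ker_dim (φ i) (by
      intro u
      fin_cases i
      · exact ⟨(0, u, 0), rfl⟩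
      · exact ⟨(u, 0, 0), rfl⟩
      · exact ⟨(u, 0, 0), by simp [φ, x, y]⟩
      · exact ⟨(0, -u, 0), by simp [φ, x, y]⟩)
    rw [hn] at this
    simpa [U] using this.le
  · intro β hs hβ
    have h0 : ∀ a b c d, β (a, 0, c) (b, 0, d) = 0 := fun a b c d => hβ 0 _ rfl _ rfl
    have h1 : ∀ a b c d, β (0, a, c) (0, b, d) = 0 := fun a b c d => hβ 1 _ rfl _ rfl
    have sp : ∀ a b a' b' : U, β (a, b, 0) (a', b', 0) =
        β (a, 0, 0) (0, b', 0) + β (a', 0, 0) (0, b, 0) := by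
      intro a b a' b'
      have e : ∀ a b : U, ((a, b, 0) : U × U × (Fin r → ℝ)) = (a, 0, 0) + (0, b, 0) := by simp
      rw [e a b, e a' b']
      simp only [map_add, LinearMap.add_apply, h0, h1]
      rw [hs (0, b, 0)]; ring
    have hC : β.compl₁₂ (LinearMap.inl _ _ _) (LinearMap.inr _ _ _ ∘ₗ LinearMap.inl _ _ _) = 0 := by
      refine (Pi.basisFun ℝ (Fin k)).ext fun i => (Pi.basisFun ℝ (Fin k)).ext fun j => ?_
      have hA : ∀ i : Fin k, A (Pi.single i 1) = (i : ℝ) • Pi.single i 1 := fun i => by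
        funext l
        show (l : ℝ) * (Pi.single i 1 : Fin k → ℝ) l = (i : ℝ) * (Pi.single i 1 : Fin k → ℝ) l
        by_cases hl : l = i
        · rw [hl]
        · simp [hl]
      have sm : ∀ (c : ℝ) (a b : U), β (a, 0, 0) (0, c • b, 0) = c * β (a, 0, 0) (0, b, 0) := by
        intro c a b
        have : ((0, c • b, 0) : U × U × (Fin r → ℝ)) = c • (0, b, 0) := by simp
        rw [this, map_smul, smul_eq_mul]
      have e2 := hβ 2 (Pi.single i 1, Pi.single i 1, 0) (by simp [φ, x, y])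
        (Pi.single j 1, Pi.single j 1, 0) (by simp [φ, x, y])
      have e3 := hβ 3 (Pi.single i 1, A (Pi.single i 1), 0) (by simp [φ, x, y])
        (Pi.single j 1, A (Pi.single j 1), 0) (by simp [φ, x, y])
      rw [sp] at e2 e3
      rw [hA, hA, sm, sm] at e3
      show β (Pi.basisFun ℝ (Fin k) i, 0, 0) (0, Pi.basisFun ℝ (Fin k) j, 0) = 0
      simp only [Pi.basisFun_apply]
      by_cases hij : i = j
      · subst hij; linarith
      · have : (j : ℝ) - i ≠ 0 := by
          rw [sub_ne_zero]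
          exact fun e => hij (Fin.ext (Nat.cast_injective (R := ℝ) e).symm)
        apply mul_left_cancel₀ this
        linear_combination e3 - (i : ℝ) * e2
    rintro ⟨a, b, c⟩
    have hc : β (a, 0, 0) (0, b, 0) = 0 := LinearMap.congr_fun (LinearMap.congr_fun hC a) b
    have e : ((a, b, c) : U × U × (Fin r → ℝ)) = (a, 0, 0) + (0, b, 0) + (0, 0, c) := by simp
    rw [e]
    simp only [map_add, LinearMap.add_apply, h0, h1, hc, hs (0, b, 0) (a, 0, 0), add_zero]

abbrev W3 (k r : ℕ) : Type := (ℝ × ℝ) × (Fin 3 → Fin k → ℝ) × (Fin r → ℝ)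

lemma good3 {n k : ℕ} (hk : 1 ≤ k) (h : 3 * k ≤ n + 1) : Good n k 3 := by
  obtain ⟨k, rfl⟩ := Nat.exists_eq_add_of_le' hk
  obtain ⟨r, rfl⟩ : ∃ r, n = 2 + 3 * k + r := ⟨n - (2 + 3 * k), by omega⟩
  let l : Fin 3 → (ℝ × ℝ →ₗ[ℝ] ℝ) :=
    ![LinearMap.fst _ _ _, LinearMap.snd _ _ _, LinearMap.fst _ _ _ - LinearMap.snd _ _ _]
  let φ : Fin 3 → ((W3 k r) →ₗ[ℝ] ℝ × (Fin k → ℝ)) := fun i => (l i ∘ₗ LinearMap.fst _ _ _).prod
    (LinearMap.proj i ∘ₗ LinearMap.fst _ _ _ ∘ₗ LinearMap.snd _ _ _)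
  have hn : finrank ℝ (W3 k r) = 2 + 3 * k + r := by simp [finrank_pi_fintype]; ring
  have hφ : ∀ i (w : (W3 k r)), w ∈ LinearMap.ker (φ i) ↔ l i w.1 = 0 ∧ w.2.1 i = 0 := fun i w => by
    simp [φ]
  refine good_of hn (by simp) (fun i => LinearMap.ker (φ i)) (fun i => ?_) (NQ.of_pol ?_)
  · have := ker_dim (φ i) (by
      rintro ⟨t, u⟩
      fin_cases i
      · exact ⟨((t, 0), fun _ => u, 0), rfl⟩
      · exact ⟨((0, t), fun _ => u, 0), rfl⟩
      · exact ⟨((t, 0), fun _ => u, 0), by simp [φ, l]⟩)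
    rw [hn] at this
    simp at this
    omega
  · rintro β hs hβ ⟨⟨s, t⟩, u, c⟩
    let e1 : (W3 k r) := ((1, 0), 0, 0)
    let e2 : (W3 k r) := ((0, 1), 0, 0)
    let w : Fin 3 → (W3 k r) := fun j => (0, Pi.single j (u j), 0)
    let ρ : (W3 k r) := (0, 0, c)
    have m1 : e1 ∈ LinearMap.ker (φ 1) := by simp [hφ, l, e1]
    have m2 : e2 ∈ LinearMap.ker (φ 0) := by simp [hφ, l, e2]
    have m3 : e1 + e2 ∈ LinearMap.ker (φ 2) := by simp [hφ, l, e1, e2]
    have mw : ∀ i j, i ≠ j → w j ∈ LinearMap.ker (φ i) := fun i j hij => by simp [hφ, w, hij]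
    have mρ : ∀ i, ρ ∈ LinearMap.ker (φ i) := fun i => by simp [hφ, ρ]
    have a11 := hβ 1 _ m1 _ m1
    have a22 := hβ 0 _ m2 _ m2
    have a12 : β e1 e2 = 0 := by
      have := hβ 2 _ m3 _ m3
      simp only [map_add, LinearMap.add_apply, a11, a22, hs e2 e1] at this
      linarith
    have a1w : ∀ j, β e1 (w j) = 0 := fun j => by
      by_cases hj : j = 1
      · subst hj
        have := hβ 2 _ m3 _ (mw 2 1 (by decide))
        simpa only [map_add, LinearMap.add_apply, hβ 0 _ m2 _ (mw 0 1 (by decide)), add_zero]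
          using this
      · exact hβ 1 _ m1 _ (mw 1 j (Ne.symm hj))
    have a2w : ∀ j, β e2 (w j) = 0 := fun j => by
      by_cases hj : j = 0
      · subst hj
        have := hβ 2 _ m3 _ (mw 2 0 (by decide))
        simpa only [map_add, LinearMap.add_apply, hβ 1 _ m1 _ (mw 1 0 (by decide)), zero_add]
          using this
      · exact hβ 0 _ m2 _ (mw 0 j (Ne.symm hj))
    have aww : ∀ i j, β (w i) (w j) = 0 := fun i j => by
      obtain ⟨p, h1, h2⟩ : ∃ p : Fin 3, p ≠ i ∧ p ≠ j := by revert i j; decide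
      exact hβ p _ (mw p i h1) _ (mw p j h2)
    have awρ : ∀ i, β (w i) ρ = 0 := fun i => by
      obtain ⟨p, h1⟩ := exists_ne i
      exact hβ p _ (mw p i h1) _ (mρ p)
    have e : (((s, t), u, c) : (W3 k r)) = s • e1 + t • e2 + (w 0 + w 1 + w 2) + ρ := by
      refine Prod.ext (by simp [e1, e2, w, ρ]) (Prod.ext ?_ (by simp [e1, e2, w, ρ]))
      funext j
      fin_cases j <;> simp [e1, e2, w, ρ]
    rw [e]
    simp only [map_add, map_smul, LinearMap.add_apply, LinearMap.smul_apply, a11, a22, a12,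
      hs e2 e1, a1w, a2w, aww, awρ, fun j => hs (w j) e1, fun j => hs (w j) e2,
      fun j => hs ρ (w j), hs ρ e1, hs ρ e2, hβ 1 _ m1 _ (mρ 1), hβ 0 _ m2 _ (mρ 0),
      hβ 0 _ (mρ 0) _ (mρ 0), smul_zero, add_zero]

lemma goodH {n : ℕ} : Good (n + 1) n ((n + 2).choose 2) := by
  let e : Fin (n + 1) → (Fin (n + 1) → ℝ) := fun i => Pi.single i 1
  refine good_of (W := Fin (n + 1) → ℝ) (ι := Sym2 (Fin (n + 1))) (by simp)
    (by simp [Sym2.card]) (fun s => Submodule.span ℝ {e s.inf + e s.sup}) (fun s => ?_)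
    (NQ.of_pol fun β hs hβ v => ?_)
  · have := finrank_span_le_card (R := ℝ) ({e s.inf + e s.sup} : Set (Fin (n + 1) → ℝ))
    simp at this
    omega
  · have h1 : ∀ i j, β (e i + e j) (e i + e j) = 0 := fun i j => by
      have := hβ s(i, j) _ (Submodule.subset_span rfl) _ (Submodule.subset_span rfl)
      rcases le_total i j with h | h
      · simpa only [Sym2.inf_mk, Sym2.sup_mk, inf_of_le_left h, sup_of_le_right h] using this
      · simpa only [Sym2.inf_mk, Sym2.sup_mk, inf_of_le_right h, sup_of_le_left h, add_comm]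
          using this
    have h2 : ∀ i, β (e i) (e i) = 0 := fun i => by
      have := h1 i i
      simp only [map_add, LinearMap.add_apply] at this
      linarith
    have : β = 0 := (Pi.basisFun ℝ _).ext fun i => (Pi.basisFun ℝ _).ext fun j => by
      have := h1 i j
      simp only [map_add, LinearMap.add_apply, h2, hs (e j) (e i)] at this
      simp only [Pi.basisFun_apply, LinearMap.zero_apply]
      show β (e i) (e j) = 0
      linarith
    simp [this]

lemma fib {ι : Type} (s : Finset ι) (c y : ι → ℝ) {M : ℕ} (hM : s.card ≤ M)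
    (h : ∀ i < M, ∑ p ∈ s, c p * y p ^ i = 0) {p0 : ι} (hp : p0 ∈ s)
    (hc : ∀ p ∈ s, y p = y p0 → c p = c p0) : c p0 = 0 := by
  classical
  let g : Polynomial ℝ :=
    ∏ p ∈ s.filter (fun p => y p ≠ y p0), (Polynomial.X - Polynomial.C (y p))
  have hg : g.natDegree < M := by
    rw [Polynomial.natDegree_finsetProd_X_sub_C_eq_card]
    refine lt_of_lt_of_le (Finset.card_lt_card ?_) hM
    exact Finset.filter_ssubset.2 ⟨p0, hp, by simp⟩
  have h1 : ∑ p ∈ s, c p * g.eval (y p) = 0 := by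
    simp_rw [Polynomial.eval_eq_sum_range' hg, Finset.mul_sum]
    rw [Finset.sum_comm]
    refine Finset.sum_eq_zero fun i hi => ?_
    simp_rw [mul_left_comm (c _), ← Finset.mul_sum, h i (Finset.mem_range.1 hi), mul_zero]
  have h2 : g.eval (y p0) ≠ 0 := by
    simp only [g, Polynomial.eval_prod, Polynomial.eval_sub, Polynomial.eval_X, Polynomial.eval_C]
    exact Finset.prod_ne_zero_iff.2 fun p hp => sub_ne_zero.2 (Finset.mem_filter.1 hp).2.symm
  rw [← Finset.sum_filter_add_sum_filter_not s (fun p => y p ≠ y p0), Finset.sum_eq_zero,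
    zero_add, Finset.sum_congr rfl (g := fun _ => c p0 * g.eval (y p0)), Finset.sum_const,
    nsmul_eq_mul] at h1
  · have : ((s.filter (fun p => ¬ y p ≠ y p0)).card : ℝ) ≠ 0 := by
      exact_mod_cast Finset.card_ne_zero.2 ⟨p0, by simp [hp]⟩
    exact (mul_eq_zero.1 ((mul_eq_zero.1 h1).resolve_left this)).resolve_right h2
  · intro p hp
    have := Finset.mem_filter.1 hp
    rw [hc p this.1 (not_not.1 this.2), not_not.1 this.2]
  · intro p hp
    simp only [g, Polynomial.eval_prod, Polynomial.eval_sub, Polynomial.eval_X, Polynomial.eval_C]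
    rw [Finset.prod_eq_zero hp (sub_self _), mul_zero]

lemma sidon {a b c e : ℕ} (h : 3 ^ a + 3 ^ b = 3 ^ c + 3 ^ e) :
    (a = c ∧ b = e) ∨ (a = e ∧ b = c) := by
  have inj : ∀ x y : ℕ, 3 ^ x = 3 ^ y → x = y := fun x y => Nat.pow_right_injective (by omega) |>.eq_iff.1
  have key : ∀ a b c e : ℕ, b ≤ a → e ≤ c → 3 ^ a + 3 ^ b = 3 ^ c + 3 ^ e → a = c ∧ b = e := by
    intro a b c e h1 h2 h
    have m : ∀ x y : ℕ, x ≤ y → 3 ^ x ≤ 3 ^ y := fun x y => Nat.pow_le_pow_right (by omega)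
    have p : ∀ x : ℕ, 0 < 3 ^ x := fun x => by positivity
    have : a = c := by
      rcases lt_trichotomy a c with t | t | t
      · have := m (a + 1) c t
        have := m b a h1
        have := p a
        have := p e
        rw [pow_succ] at *
        omega
      · exact t
      · have := m (c + 1) a t
        have := m e c h2
        have := p c
        have := p b
        rw [pow_succ] at *
        omega
    subst this
    exact ⟨rfl, inj _ _ (by omega)⟩
  rcases le_total b a with h1 | h1 <;> rcases le_total e c with h2 | h2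
  · exact Or.inl (key _ _ _ _ h1 h2 h)
  · exact Or.inr (key _ _ _ _ h1 h2 (by omega))
  · exact Or.inr (key _ _ _ _ h1 h2 (by omega)).symm
  · exact Or.inl (key _ _ _ _ h1 h2 (by omega)).symm

lemma goodSq {n k q : ℕ} (hk : k ≤ n) (hq : 0 < q) (h : n ≤ q * (n - k)) : Good n k (q ^ 2) := by
  let y : Fin n → ℝ := fun a => 2 ^ 3 ^ (a : ℕ)
  let P : Fin (q ^ 2) → Fin (n - k) → Fin n → ℝ := fun i s a =>
    if a / q = (s : ℕ) then y a ^ (i : ℕ) else 0
  have : Nonempty (Fin (q ^ 2)) := ⟨⟨0, by positivity⟩⟩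
  refine good_of (W := Fin n → ℝ) (ι := Fin (q ^ 2)) (by simp) (by simp)
    (fun i => Submodule.span ℝ (Set.range (P i))) (fun i => ?_) (NQ.of_pol fun β hs hβ v => ?_)
  · have := finrank_range_le_card (R := ℝ) (P i)
    simp only [Set.finrank, Fintype.card_fin] at this
    omega
  · let e : Fin n → Fin n → ℝ := fun a => Pi.single a 1
    let F : ℕ → Finset (Fin n) := fun s => Finset.univ.filter (fun a => a / q = s)
    have hF : ∀ s, (F s).card ≤ q := fun s => by
      rw [← Finset.card_range q]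
      refine Finset.card_le_card_of_injOn (fun a => a % q)
        (fun a _ => Finset.mem_coe.2 (Finset.mem_range.2 (Nat.mod_lt _ hq))) fun a ha b hb hab => ?_
      have h1 := (Finset.mem_filter.1 ha).2
      have h2 := (Finset.mem_filter.1 hb).2
      have h3 : (a : ℕ) % q = b % q := hab
      apply Fin.ext
      rw [← Nat.div_add_mod a q, ← Nat.div_add_mod b q, h1, h2, h3]
    have hP : ∀ i s, P i s = ∑ a ∈ F s, y a ^ (i : ℕ) • e a := fun i s => by
      funext a
      simp [P, F, e, Finset.sum_apply, Pi.single_apply]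
    have hlt : ∀ a : Fin n, a / q < n - k := fun a =>
      Nat.div_lt_of_lt_mul (lt_of_lt_of_le a.2 h)
    have : β = 0 := (Pi.basisFun ℝ _).ext fun a => (Pi.basisFun ℝ _).ext fun b => by
      simp only [Pi.basisFun_apply, LinearMap.zero_apply]
      refine fib (F (a / q) ×ˢ F (b / q)) (fun p => β (e p.1) (e p.2)) (fun p => y p.1 * y p.2)
        (M := q ^ 2) ?_ (fun i hi => ?_) (p0 := (a, b)) (by simp [F]) ?_
      · rw [Finset.card_product, sq]
        exact Nat.mul_le_mul (hF _) (hF _)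
      · have := hβ ⟨i, hi⟩ _ (Submodule.subset_span ⟨⟨_, hlt a⟩, rfl⟩) _
          (Submodule.subset_span ⟨⟨_, hlt b⟩, rfl⟩)
        rw [hP, hP] at this
        simp only [map_sum, map_smul, LinearMap.sum_apply, LinearMap.smul_apply, smul_eq_mul,
          Finset.mul_sum] at this
        rw [Finset.sum_product_right, ← this]
        exact Finset.sum_congr rfl fun _ _ => Finset.sum_congr rfl fun _ _ => by ring
      · rintro ⟨c, d⟩ - hy
        simp only [y, ← pow_add] at hy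
        rcases sidon (pow_right_injective₀ (by norm_num) (by norm_num) hy) with ⟨h1, h2⟩ | ⟨h1, h2⟩
        · rw [Fin.ext h1, Fin.ext h2]
        · rw [Fin.ext h1, Fin.ext h2]; exact hs _ _
    simp [this]

lemma count {n d : ℕ} {W : Type} [AddCommGroup W] [Module ℝ W] [FiniteDimensional ℝ W]
    (hn : finrank ℝ W = n) {m : ℕ} (V : Fin m → Submodule ℝ W) (hd : ∀ i, finrank ℝ (V i) = d)
    (h : NQ V) : (n + 1).choose 2 ≤ m * (d + 1).choose 2 := by
  let b := finBasisOfFinrankEq ℝ W hn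
  let c := fun i => finBasisOfFinrankEq ℝ (V i) (hd i)
  let B : (Sym2 (Fin n) → ℝ) →ₗ[ℝ] (W →ₗ[ℝ] W →ₗ[ℝ] ℝ) :=
    (b.constr ℝ).toLinearMap ∘ₗ LinearMap.pi fun i => (b.constr ℝ).toLinearMap ∘ₗ
      LinearMap.pi fun j => LinearMap.proj s(i, j)
  have hB : ∀ f i j, B f (b i) (b j) = f s(i, j) := fun f i j => by simp [B]
  have hs : ∀ f, (B f).flip = B f := fun f => b.ext fun i => b.ext fun j => by
    simp [hB, Sym2.eq_swap]
  have hs' : ∀ f x y, B f x y = B f y x := fun f x y => by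
    conv_lhs => rw [← hs]
    rfl
  let Φ : (Sym2 (Fin n) → ℝ) →ₗ[ℝ] (Fin m × Sym2 (Fin d) → ℝ) := LinearMap.pi fun p =>
    (LinearMap.applyₗ (c p.1 p.2.sup : W)) ∘ₗ (LinearMap.applyₗ (c p.1 p.2.inf : W)) ∘ₗ B
  have hΦ : Function.Injective Φ := by
    rw [injective_iff_map_eq_zero]
    intro f hf
    have h1 : ∀ i p q, B f (c i p) (c i q) = 0 := fun i p q => by
      have := congrFun hf (i, s(p, q))
      rcases le_total p q with h | h
      · simpa [Φ, inf_of_le_left h, sup_of_le_right h] using this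
      · rw [hs']; simpa [Φ, inf_of_le_right h, sup_of_le_left h] using this
    have h2 := h (B f) fun i v hv => by
      have : (B f).compl₁₂ (V i).subtype (V i).subtype = 0 :=
        (c i).ext fun p => (c i).ext fun q => h1 i p q
      exact LinearMap.congr_fun (LinearMap.congr_fun this ⟨v, hv⟩) ⟨v, hv⟩
    funext s
    induction s using Sym2.ind with
    | _ i j =>
      have := h2 (b i + b j)
      simp only [map_add, LinearMap.add_apply, h2, hs' f (b j) (b i), hB] at this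
      have e1 := h2 (b i)
      have e2 := h2 (b j)
      rw [hB] at e1 e2
      simp only [Pi.zero_apply]
      linarith
  simpa [Sym2.card] using LinearMap.finrank_le_finrank_of_injective hΦ

variable {E : Type} [NormedAddCommGroup E] [InnerProductSpace ℝ E]

lemma prodz {ι : Type} {S : ι → Submodule ℝ E} (h : NQ fun i => (S i)ᗮ) {a b : E}
    (hab : ∀ i, a ∈ S i ∨ b ∈ S i) : a = 0 ∨ b = 0 := by
  have := h ((LinearMap.mul ℝ ℝ).compl₁₂ (innerₗ E a) (innerₗ E b)) fun i v hv => by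
    rcases hab i with h | h <;> simp [Submodule.inner_right_of_mem_orthogonal h hv]
  by_contra hc
  push Not at hc
  have ha : 0 < ⟪a, a⟫_ℝ := real_inner_self_pos.2 hc.1
  have hb : 0 < ⟪b, b⟫_ℝ := real_inner_self_pos.2 hc.2
  have e1 := this (a + b)
  have e2 := this (a - b)
  simp only [LinearMap.compl₁₂_apply, innerₗ_apply_apply, LinearMap.mul_apply', inner_add_right,
    inner_sub_right, real_inner_comm a b] at e1 e2
  rcases le_total 0 ⟪a, b⟫_ℝ with h | h
  · nlinarith [mul_pos (add_pos_of_pos_of_nonneg ha h) (add_pos_of_nonneg_of_pos h hb)]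
  · nlinarith [mul_pos (sub_pos.2 (h.trans_lt ha)) (sub_pos.2 (h.trans_lt hb))]

lemma three [FiniteDimensional ℝ E] {k : ℕ} (hk : 1 ≤ k) {S : Fin 3 → Submodule ℝ E}
    (hd : ∀ i, finrank ℝ (S i) = k) (h : NQ fun i => (S i)ᗮ) : 3 * k ≤ finrank ℝ E + 1 := by
  have np : ∀ i j, i ≠ j → ∀ c, c ∈ S i → c ∈ S j → c = 0 := by
    intro i j hij c h1 h2
    obtain ⟨l, hl⟩ : ∃ l : Fin 3, ∀ p, p = i ∨ p = j ∨ p = l := by
      clear h1 h2; revert i j; decide
    obtain ⟨w, hw, hw0⟩ := Submodule.exists_mem_ne_zero_of_ne_bot (p := S l) (by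
      intro e
      have := hd l
      rw [e, finrank_bot] at this
      omega)
    refine (prodz h (a := c) (b := w) fun p => ?_).resolve_right hw0
    rcases hl p with rfl | rfl | rfl
    exacts [Or.inl h1, Or.inl h2, Or.inr hw]
  let σ : S 0 × S 1 × S 2 →ₗ[ℝ] E :=
    (S 0).subtype.coprod ((S 1).subtype.coprod (S 2).subtype)
  have hσ : ∀ a ∈ LinearMap.ker σ, (a.1 : E) + (a.2.1 + a.2.2) = 0 := fun a ha => ha
  have z1 : ∀ a ∈ LinearMap.ker σ, (a.2.1 : E) = 0 → a = 0 := fun a ha h1 => by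
    have e := hσ a ha
    rw [h1, zero_add] at e
    have h0 : (a.1 : E) = 0 := np 0 2 (by decide) _ a.1.2 (by
      rw [eq_neg_of_add_eq_zero_left e]; exact (S 2).neg_mem a.2.2.2)
    rw [h0, zero_add] at e
    exact Prod.ext (Subtype.ext h0) (Prod.ext (Subtype.ext h1) (Subtype.ext e))
  have z0 : ∀ a ∈ LinearMap.ker σ, (a.1 : E) = 0 → a = 0 := fun a ha h1 => by
    have e := hσ a ha
    rw [h1, zero_add] at e
    exact z1 a ha (np 1 2 (by decide) _ a.2.1.2 (by
      rw [eq_neg_of_add_eq_zero_left e]; exact (S 2).neg_mem a.2.2.2))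
  have id : ∀ a ∈ LinearMap.ker σ, ∀ b ∈ LinearMap.ker σ, ∀ v : E,
      ⟪(a.1 : E), v⟫_ℝ * ⟪(b.2.1 : E), v⟫_ℝ - ⟪(a.2.1 : E), v⟫_ℝ * ⟪(b.1 : E), v⟫_ℝ = 0 := by
    intro a ha b hb
    refine h ((LinearMap.mul ℝ ℝ).compl₁₂ (innerₗ E a.1) (innerₗ E b.2.1) -
      (LinearMap.mul ℝ ℝ).compl₁₂ (innerₗ E a.2.1) (innerₗ E b.1)) fun i v hv => ?_
    show ⟪(a.1 : E), v⟫_ℝ * ⟪(b.2.1 : E), v⟫_ℝ - ⟪(a.2.1 : E), v⟫_ℝ * ⟪(b.1 : E), v⟫_ℝ = 0
    fin_cases i
    · rw [Submodule.inner_right_of_mem_orthogonal a.1.2 hv,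
        Submodule.inner_right_of_mem_orthogonal b.1.2 hv]; ring
    · rw [Submodule.inner_right_of_mem_orthogonal a.2.1.2 hv,
        Submodule.inner_right_of_mem_orthogonal b.2.1.2 hv]; ring
    · have e1 := congrArg (fun x => ⟪x, v⟫_ℝ) (hσ a ha)
      have e2 := congrArg (fun x => ⟪x, v⟫_ℝ) (hσ b hb)
      simp only [inner_add_left, inner_zero_left,
        Submodule.inner_right_of_mem_orthogonal a.2.2.2 hv,
        Submodule.inner_right_of_mem_orthogonal b.2.2.2 hv] at e1 e2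
      linear_combination ⟪(a.1 : E), v⟫_ℝ * e2 - ⟪(b.1 : E), v⟫_ℝ * e1
  have h1 : finrank ℝ (LinearMap.ker σ) ≤ 1 := by
    by_cases hz : ∀ a : LinearMap.ker σ, a = 0
    · exact finrank_le_one 0 fun w => ⟨0, by simp [hz w]⟩
    obtain ⟨⟨a, ha⟩, ha0⟩ := not_forall.1 hz
    have ha0' : a ≠ 0 := fun e => ha0 (Subtype.ext e)
    refine finrank_le_one ⟨a, ha⟩ fun ⟨b, hb⟩ => ?_
    set x : E := ⟪(a.2.1 : E), a.2.1⟫_ℝ • (a.1 : E) - ⟪(a.2.1 : E), a.1⟫_ℝ • (a.2.1 : E) with hx
    have x1 : ⟪(a.2.1 : E), x⟫_ℝ = 0 := by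
      rw [hx, inner_sub_right, inner_smul_right, inner_smul_right]; ring
    have x0 : ⟪(a.1 : E), x⟫_ℝ ≠ 0 := by
      intro e
      have : ⟪x, x⟫_ℝ = 0 := by
        nth_rewrite 1 [hx]
        rw [inner_sub_left, real_inner_smul_left, real_inner_smul_left, e, x1]; ring
      rw [inner_self_eq_zero, hx, sub_eq_zero] at this
      have e2 := np 0 1 (by decide) _ ((S 0).smul_mem _ a.1.2)
        (this ▸ (S 1).smul_mem _ a.2.1.2)
      rcases smul_eq_zero.1 e2 with e3 | e3
      · exact ha0' (z1 a ha (inner_self_eq_zero.1 e3))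
      · exact ha0' (z0 a ha e3)
    refine ⟨⟪(b.1 : E), x⟫_ℝ / ⟪(a.1 : E), x⟫_ℝ, Subtype.ext ?_⟩
    set t := ⟪(b.1 : E), x⟫_ℝ / ⟪(a.1 : E), x⟫_ℝ with ht
    have hc : b - t • a ∈ LinearMap.ker σ := Submodule.sub_mem _ hb (Submodule.smul_mem _ _ ha)
    have c0 : ⟪((b - t • a).1 : E), x⟫_ℝ = 0 := by
      show ⟪(b.1 : E) - t • (a.1 : E), x⟫_ℝ = 0
      rw [inner_sub_left, real_inner_smul_left, ht]
      field_simp
      ring
    have := z1 _ hc (by
      set c := b - t • a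
      have i1 := id a ha c hc x
      have i2 := id a ha c hc c.2.1
      have i3 := id a ha c hc (x + c.2.1)
      simp only [inner_add_right, x1, c0] at i1 i3
      have c1 : ⟪(c.2.1 : E), x⟫_ℝ = 0 := by
        apply mul_left_cancel₀ x0; linarith
      rw [c1] at i3
      apply inner_self_eq_zero.1 (mul_left_cancel₀ x0 (_ : _ = _ * (0 : ℝ)))
      linarith)
    exact (sub_eq_zero.1 this).symm
  have h2 := σ.finrank_range_add_finrank_ker
  have h3 := (LinearMap.range σ).finrank_le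
  simp only [finrank_prod, hd] at h2
  omega

lemma pad {n k m : ℕ} (h : Good n k m) (M : ℕ) (hM : m ≤ M) (hk : k ≤ n) :
    ∃ S : Fin M → Submodule ℝ (EuclideanSpace ℝ (Fin n)),
      (∀ i, finrank ℝ (S i) = k) ∧ NQ fun i => (S i)ᗮ := by
  obtain ⟨S, h1, h2⟩ := h
  obtain ⟨S0, -, h0⟩ := shrink (⊤ : Submodule ℝ (EuclideanSpace ℝ (Fin n))) (k := k) (by simpa)
  refine ⟨fun j => if h : j.1 < m then S ⟨j, h⟩ else S0, fun j => ?_, ?_⟩
  · by_cases h : j.1 < m
    · exact (congrArg (fun T : Submodule ℝ _ => finrank ℝ T) (dif_pos h)).trans (h1 _)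
    · exact (congrArg (fun T : Submodule ℝ _ => finrank ℝ T) (dif_neg h)).trans h0
  · exact NQ.mono (V := fun i => (S i)ᗮ) (lower' h2) fun i => ⟨Fin.castLE hM i, by simp⟩

lemma ge3 {n k m : ℕ} (h : Good n k m) (hk : 1 ≤ k) (hn : k ≤ n) : 3 ≤ m := by
  by_contra hm
  obtain ⟨S, h1, h2⟩ := pad h 2 (by omega) hn
  have : ∀ l, ∃ w ∈ S l, w ≠ 0 := fun l => Submodule.exists_mem_ne_zero_of_ne_bot (by
    intro e
    have := h1 l
    rw [e, finrank_bot] at this
    omega)
  choose w hw hw0 using this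
  rcases prodz h2 (a := w 0) (b := w 1) (fun p => by
    fin_cases p
    exacts [Or.inl (hw 0), Or.inr (hw 1)]) with e | e <;> exact hw0 _ e

lemma ge4 {n k m : ℕ} (h : Good n k m) (hk : 1 ≤ k) (hn : k ≤ n) (h3 : n + 1 < 3 * k) :
    4 ≤ m := by
  by_contra hm
  obtain ⟨S, h1, h2⟩ := pad h 3 (by omega) hn
  have := three hk h1 h2
  simp at this
  omega

lemma geC {n k m : ℕ} (h : Good n k m) : (n + 1).choose 2 ≤ m * (n - k + 1).choose 2 := by
  obtain ⟨S, h1, h2⟩ := h
  refine count (by simp) (fun i => (S i)ᗮ) (fun i => ?_) (lower' h2)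
  have := (S i).finrank_add_finrank_orthogonal
  simp only [finrank_euclideanSpace, Fintype.card_fin, h1] at this
  omega

end Pool.Agent.H.MP_605763_gt
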